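import Pool.Agent.H.MP_8219a1_an.Defs

set_option autoImplicit false
set_option linter.unusedSectionVars false

namespace Pool.Agent.H.MP_8219a1_an

open scoped ComplexOrder

section
variable {B : Type*} [NonUnitalCStarAlgebra B] {ρ : B →L[ℂ] ℂ} {e : B}

theorem le_norm (hρ : ‖ρ‖ ≤ 1) (x : B) : ‖ρ x‖ ≤ ‖x‖ :=
  (ρ.le_opNorm x).trans (mul_le_of_le_one_left (norm_nonneg _) hρ)

theorem quad_zero {z : ℂ} {C : ℝ} (h : ∀ t : ℂ, ‖1 + t * z‖ ^ 2 ≤ 1 + ‖t‖ ^ 2 * C) : z = 0 := by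
  by_contra hz
  have h0 : 0 < ‖z‖ := norm_pos_iff.2 hz
  set s : ℝ := 1 / (|C| + 1) with hs
  have hs0 : 0 < s := by positivity
  have h1 := h (s * starRingEnd ℂ z)
  rw [mul_assoc, Complex.conj_mul', norm_mul, Complex.norm_conj, Complex.norm_real,
    Real.norm_of_nonneg hs0.le] at h1
  have h2 : (1 + s * (‖z‖ : ℂ) ^ 2 : ℂ) = ((1 + s * ‖z‖ ^ 2 : ℝ) : ℂ) := by push_cast; ring
  rw [h2, Complex.norm_real, Real.norm_of_nonneg (by positivity)] at h1
  have h3 : s * C < 1 := by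
    have := le_abs_self C
    rw [hs, one_div, inv_mul_lt_iff₀ (by positivity)]
    linarith
  have h4 : 0 < s * ‖z‖ ^ 2 := by positivity
  nlinarith

theorem zero_left (hρ : ‖ρ‖ ≤ 1) (he : IsStarProjection e) (h1 : ρ e = 1) {x : B}
    (hx : e * x = 0) : ρ x = 0 := by
  refine quad_zero (C := ‖x‖ ^ 2) fun t => ?_
  have h2 : 1 + t * ρ x = ρ (e + t • x) := by simp [h1]
  have hx' : star x * e = 0 := by simpa [he.isSelfAdjoint.star_eq] using congrArg star hx
  have h3 : star (e + t • x) * (e + t • x) = e + star (t • x) * (t • x) := by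
    simp [add_mul, mul_add, he.isSelfAdjoint.star_eq, he.isIdempotentElem.eq, hx, hx',
      smul_mul_assoc, mul_smul_comm]
  calc _ ≤ ‖e + t • x‖ ^ 2 := by rw [h2]; gcongr; exact le_norm hρ _
    _ = ‖e + star (t • x) * (t • x)‖ := by rw [← h3, CStarRing.norm_star_mul_self, sq]
    _ ≤ ‖e‖ + ‖star (t • x) * (t • x)‖ := norm_add_le _ _
    _ ≤ 1 + ‖t‖ ^ 2 * ‖x‖ ^ 2 := by
      rw [CStarRing.norm_star_mul_self, norm_smul]
      have := he.norm_le
      nlinarith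

theorem zero_right (hρ : ‖ρ‖ ≤ 1) (he : IsStarProjection e) (h1 : ρ e = 1) {x : B}
    (hx : x * e = 0) : ρ x = 0 := by
  refine quad_zero (C := ‖x‖ ^ 2) fun t => ?_
  have h2 : 1 + t * ρ x = ρ (e + t • x) := by simp [h1]
  have hx' : e * star x = 0 := by simpa [he.isSelfAdjoint.star_eq] using congrArg star hx
  have h3 : (e + t • x) * star (e + t • x) = e + (t • x) * star (t • x) := by
    simp [add_mul, mul_add, he.isSelfAdjoint.star_eq, he.isIdempotentElem.eq, hx, hx',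
      smul_mul_assoc, mul_smul_comm]
  calc _ ≤ ‖e + t • x‖ ^ 2 := by rw [h2]; gcongr; exact le_norm hρ _
    _ = ‖e + (t • x) * star (t • x)‖ := by rw [← h3, CStarRing.norm_self_mul_star, sq]
    _ ≤ ‖e‖ + ‖(t • x) * star (t • x)‖ := norm_add_le _ _
    _ ≤ 1 + ‖t‖ ^ 2 * ‖x‖ ^ 2 := by
      rw [CStarRing.norm_self_mul_star, norm_smul]
      have := he.norm_le
      nlinarith

theorem cut (hρ : ‖ρ‖ ≤ 1) (he : IsStarProjection e) (h1 : ρ e = 1) (b : B) :
    ρ (e * b * e) = ρ b := by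
  have h2 := zero_left hρ he h1 (x := b - e * b) (by
    rw [mul_sub, ← mul_assoc, he.isIdempotentElem.eq, sub_self])
  have h3 := zero_right hρ he h1 (x := e * b - e * b * e) (by
    rw [sub_mul, mul_assoc _ e e, he.isIdempotentElem.eq, sub_self])
  rw [map_sub] at h2 h3
  linear_combination -h2 - h3

theorem isState (hρ : ‖ρ‖ ≤ 1) (he : IsStarProjection e) (h1 : ρ e = 1) : IsState ρ := by
  refine ⟨fun a => ?_, le_antisymm hρ ?_⟩
  · let _ := CStarAlgebra.spectralOrder B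
    have _ := CStarAlgebra.spectralOrderedRing B
    rw [← cut hρ he h1]
    set h := e * (star a * a) * e with hh
    have s1 : star e = e := he.isSelfAdjoint.star_eq
    have p1 : 0 ≤ h := by
      have := star_left_conjugate_nonneg (star_mul_self_nonneg a) e
      rwa [s1] at this
    have e1 : e * h = h := by rw [hh, ← mul_assoc, ← mul_assoc, he.isIdempotentElem.eq]
    have e2 : h * e = h := by rw [hh, mul_assoc _ e e, he.isIdempotentElem.eq]
    have s2 : star h = h := p1.isSelfAdjoint.star_eq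
    have him : (ρ h).im = 0 := by
      have key : ∀ t : ℝ, 2 * t * (ρ h).im ≤ ‖h‖ ^ 2 := by
        intro t
        have h3 : star (h + (t * Complex.I) • e) * (h + (t * Complex.I) • e) =
            star h * h + ((t ^ 2 : ℝ) : ℂ) • e := by
          simp only [star_add, star_smul, s1, s2, add_mul, mul_add, smul_mul_assoc, mul_smul_comm,
            e1, e2, he.isIdempotentElem.eq, Complex.star_def, map_mul, Complex.conj_ofReal,
            Complex.conj_I]
          match_scalars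
          · ring
          · ring
          · linear_combination (-(t : ℂ) ^ 2) * Complex.I_mul_I
        have h4 : ‖ρ h + t * Complex.I‖ ^ 2 ≤ ‖h‖ ^ 2 + t ^ 2 := by
          have h5 : ρ h + t * Complex.I = ρ (h + (t * Complex.I) • e) := by simp [h1]
          calc _ ≤ ‖h + (t * Complex.I) • e‖ ^ 2 := by rw [h5]; gcongr; exact le_norm hρ _
            _ = ‖star h * h + ((t ^ 2 : ℝ) : ℂ) • e‖ := by
              rw [← h3, CStarRing.norm_star_mul_self, sq]
            _ ≤ ‖star h * h‖ + ‖((t ^ 2 : ℝ) : ℂ) • e‖ := norm_add_le _ _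
            _ ≤ _ := by
              rw [CStarRing.norm_star_mul_self, norm_smul, Complex.norm_real,
                Real.norm_of_nonneg (sq_nonneg t)]
              have := he.norm_le
              nlinarith [sq_nonneg t]
        rw [Complex.sq_norm, Complex.normSq_apply] at h4
        simp only [Complex.add_re, Complex.add_im, Complex.mul_re, Complex.mul_im,
          Complex.ofReal_re, Complex.ofReal_im, Complex.I_re, Complex.I_im] at h4
        nlinarith [sq_nonneg (ρ h).re, sq_nonneg (ρ h).im]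
      by_contra hne
      have := key ((‖h‖ ^ 2 + 1) / (2 * (ρ h).im))
      field_simp at this
      linarith
    have p2 : h ≤ ‖star a * a‖ • e := by
      have := CStarAlgebra.star_left_conjugate_le_norm_smul (a := e) (b := star a * a)
      rwa [s1, he.isIdempotentElem.eq] at this
    have p3 : ‖‖star a * a‖ • e - h‖ ≤ ‖star a * a‖ := by
      refine (CStarAlgebra.norm_le_norm_of_nonneg_of_le (sub_nonneg.2 p2)
        (sub_le_self _ p1)).trans ?_
      rw [norm_smul, norm_norm]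
      exact mul_le_of_le_one_right (norm_nonneg _) he.norm_le
    have p4 := (Complex.re_le_norm _).trans ((le_norm hρ _).trans p3)
    rw [map_sub, ρ.map_smul_of_tower, h1] at p4
    simp only [Complex.sub_re, Complex.real_smul, mul_one, Complex.ofReal_re] at p4
    exact Complex.nonneg_iff.2 ⟨by linarith, him.symm⟩
  · have h2 := ρ.le_opNorm e
    rw [h1, norm_one] at h2
    exact h2.trans (mul_le_of_le_one_right (norm_nonneg _) he.norm_le)

end

theorem hb {X B : Type*} [AddCommGroup X] [Module ℂ X] [NormedAddCommGroup B] [NormedSpace ℂ B]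
    (T : X →ₗ[ℂ] B) (F : X →ₗ[ℂ] ℂ) (h : ∀ x, ‖F x‖ ≤ ‖T x‖) :
    ∃ ρ : B →L[ℂ] ℂ, ‖ρ‖ ≤ 1 ∧ ∀ x, ρ (T x) = F x := by
  have hk : LinearMap.ker T ≤ LinearMap.ker F := fun x hx => by
    have := h x
    rw [LinearMap.mem_ker.1 hx, norm_zero] at this
    exact norm_le_zero_iff.1 this
  let F' : LinearMap.range T →ₗ[ℂ] ℂ :=
    (LinearMap.ker T).liftQ F hk ∘ₗ T.quotKerEquivRange.symm.toLinearMap
  have hF' : ∀ x, F' ⟨T x, x, rfl⟩ = F x := fun x => by
    simp [F', LinearMap.quotKerEquivRange_symm_apply_image]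
  have hb' : ∀ y, ‖F' y‖ ≤ 1 * ‖y‖ := by
    rintro ⟨_, x, rfl⟩
    rw [hF', one_mul]
    exact h x
  obtain ⟨ρ, h1, h2⟩ := exists_extension_norm_eq _ (F'.mkContinuous 1 hb')
  exact ⟨ρ, h2.trans_le (LinearMap.mkContinuous_norm_le _ zero_le_one _),
    fun x => (h1 ⟨T x, x, rfl⟩).trans (hF' x)⟩

theorem no_ext {A : Type*} [CStarAlgebra A] {φ ψ : A →L[ℂ] ℂ} (χ : ℕ → A)
    (φ1 : φ 1 = 1) (ψ1 : ψ 1 = 1) (ψn : ‖ψ‖ ≤ 1) (hχ : ∀ m, φ (χ m) = 1)
    (hG : ∀ ρ : A →L[ℂ] ℂ, ‖ρ‖ ≤ 1 → (∀ m, ρ (χ m) = 1) → ρ = φ)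
    (hN : ∀ s : Set A, s.Countable → ∃ ρ : A →L[ℂ] ℂ, ‖ρ‖ ≤ 1 ∧ ρ ≠ ψ ∧ ∀ a ∈ s, ρ a = ψ a)
    {B : Type*} [NonUnitalCStarAlgebra B] (ι : A →⋆ₙₐ[ℂ] B) (hι : Function.Injective ι)
    {φ' ψ' : B →L[ℂ] ℂ} (h1 : UniqueExt ι φ φ') (h2 : UniqueExt ι ψ ψ') (α : B ≃⋆ₐ[ℂ] B) :
    ¬ ∀ b, φ' b = ψ' (α b) := by
  intro hα
  have he : IsStarProjection (ι 1) := (IsStarProjection.one A).map ι
  have hn : ∀ a, ‖ι a‖ = ‖a‖ := NonUnitalStarAlgHom.norm_map ι hι
  have key : ∀ b : B, ∃ s : Set A, s.Countable ∧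
      ∀ z : ℂ, (∀ a ∈ s, ‖z - ψ a‖ ≤ ‖b - ι a‖) → z = ψ' b := by
    intro b
    obtain ⟨s, hs, hU⟩ := TopologicalSpace.isOpen_iUnion_countable
      (fun a : A => {z : ℂ | ‖b - ι a‖ < ‖z - ψ a‖})
      (fun a => isOpen_lt continuous_const (by fun_prop))
    refine ⟨s, hs, fun z hz => ?_⟩
    have h3 : ∀ a, ‖z - ψ a‖ ≤ ‖b - ι a‖ := by
      intro a
      by_contra hc
      have : z ∈ ⋃ a ∈ s, {z : ℂ | ‖b - ι a‖ < ‖z - ψ a‖} :=
        hU ▸ Set.mem_iUnion.2 ⟨a, not_le.1 hc⟩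
      obtain ⟨a', ha', h⟩ := Set.mem_iUnion₂.1 this
      exact absurd (hz a' ha') (not_le.2 h)
    obtain ⟨ρ, r1, r2⟩ := hb (X := A × ℂ)
      (LinearMap.coprod (ι : A →ₗ[ℂ] B) (LinearMap.toSpanSingleton ℂ B b))
      (LinearMap.coprod (ψ : A →ₗ[ℂ] ℂ) (LinearMap.toSpanSingleton ℂ ℂ z)) (by
        rintro ⟨a, t⟩
        change ‖ψ a + t • z‖ ≤ ‖ι a + t • b‖
        by_cases ht : t = 0
        · simpa [ht, hn] using le_norm ψn a
        · have h4 := h3 (-(t⁻¹ • a))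
          have e1 : ψ a + t • z = t • (z - ψ (-(t⁻¹ • a))) := by
            simp [smul_add, ht, add_comm, mul_add]
          have e2 : ι a + t • b = t • (b - ι (-(t⁻¹ • a))) := by
            simp [smul_add, ht, add_comm]
          rw [e1, e2, norm_smul, norm_smul]
          gcongr)
    have r3 : ∀ a, ρ (ι a) = ψ a := fun a => by simpa using r2 (a, 0)
    have r4 : ρ b = z := by simpa using r2 (0, 1)
    rw [← r4, (h2 ρ).1 ⟨isState r1 he ((r3 1).trans ψ1), r3⟩]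
  choose s hs hs' using fun m => key (α (ι (χ m)))
  obtain ⟨σ, σn, σne, hσ⟩ := hN (⋃ m, s m) (Set.countable_iUnion hs)
  obtain ⟨ρ, r1, r2⟩ := hb (ι : A →ₗ[ℂ] B) (σ : A →ₗ[ℂ] ℂ) fun a => by
    change ‖σ a‖ ≤ ‖ι a‖
    rw [hn]
    exact le_norm σn a
  replace r2 : ∀ a, ρ (ι a) = σ a := r2
  have hφ' := (h1 φ').2 rfl
  have r3 : ∀ m, ρ (α (ι (χ m))) = 1 := fun m => by
    rw [hs' m (ρ (α (ι (χ m)))) fun a ha => ?_, ← hα, hφ'.2, hχ]
    rw [← hσ a (Set.mem_iUnion.2 ⟨m, ha⟩), ← r2, ← map_sub]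
    exact le_norm r1 _
  have hαn : ∀ b, ‖ρ (α b)‖ ≤ 1 * ‖b‖ := fun b => by
    rw [one_mul]
    exact (le_norm r1 _).trans (NonUnitalStarAlgHom.norm_apply_le α b)
  let τ : B →L[ℂ] ℂ := LinearMap.mkContinuous
    ⟨⟨fun b => ρ (α b), fun a b => by simp⟩, fun a b => by simp⟩ 1 hαn
  have τn : ‖τ‖ ≤ 1 := LinearMap.mkContinuous_norm_le _ zero_le_one _
  have hιn : ∀ a, ‖τ (ι a)‖ ≤ 1 * ‖a‖ := fun a => by
    rw [one_mul, ← hn]
    exact le_norm τn _
  let τ' : A →L[ℂ] ℂ := LinearMap.mkContinuous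
    ⟨⟨fun a => τ (ι a), fun a b => by simp⟩, fun a b => by simp⟩ 1 hιn
  have t1 : τ' = φ := hG τ' (LinearMap.mkContinuous_norm_le _ zero_le_one _) r3
  have t2 : ∀ a, τ (ι a) = φ a := fun a => t1 ▸ rfl
  have t3 : τ = φ' := (h1 τ).1 ⟨isState τn he ((t2 1).trans φ1), t2⟩
  refine σne (ContinuousLinearMap.ext fun a => ?_)
  obtain ⟨b, hb⟩ : ∃ b, α b = ι a := α.surjective _
  rw [← r2, ← ((h2 ψ').2 rfl).2, ← hb, ← hα, ← t3]
  rfl

end Pool.Agent.H.MP_8219a1_an
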