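import Pool.Agent.H.MP_8219a1_an.A

set_option autoImplicit false

namespace Pool.Agent.H.MP_8219a1_an

open scoped ComplexOrder InnerProductSpace
open Filter Topology

/-- clopen sets of the evenly spaced topology on `ℤ` -/
def Clo (W : Set ℤ) : Prop := ∀ g : ℤ, ∃ n : ℤ, 0 < n ∧ ∀ x, n ∣ x - g → (x ∈ W ↔ g ∈ W)

theorem Clo.univ : Clo Set.univ := fun _ => ⟨1, one_pos, fun _ _ => Iff.rfl⟩

theorem Clo.compl {W : Set ℤ} (h : Clo W) : Clo Wᶜ := fun g =>
  let ⟨n, a, b⟩ := h g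
  ⟨n, a, fun x hx => not_congr (b x hx)⟩

theorem Clo.inter {W V : Set ℤ} (h : Clo W) (k : Clo V) : Clo (W ∩ V) := fun g =>
  let ⟨n, a, b⟩ := h g
  let ⟨m, c, d⟩ := k g
  ⟨n * m, mul_pos a c, fun x hx => and_congr (b x ((dvd_mul_right _ _).trans hx))
    (d x ((dvd_mul_left _ _).trans hx))⟩

theorem Clo.union {W V : Set ℤ} (h : Clo W) (k : Clo V) : Clo (W ∪ V) := by
  simpa [Set.compl_inter] using (h.compl.inter k.compl).compl

theorem Clo.shift {W : Set ℤ} (h : Clo W) (t : ℤ) : Clo {x | x - t ∈ W} := fun g =>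
  let ⟨n, a, b⟩ := h (g - t)
  ⟨n, a, fun x hx => b (x - t) (by simpa using hx)⟩

theorem Clo.coset {n : ℤ} (hn : 0 < n) (r : ℤ) : Clo {x | n ∣ x - r} := fun g =>
  ⟨n, hn, fun x hx => by
    have : x - r = x - g + (g - r) := by ring
    simp only [Set.mem_ofPred_eq, this]
    exact (Int.dvd_iff_dvd_of_dvd_sub (by simpa using hx))⟩

theorem ex_v (g : ℤ) : ∃ j : ℕ, ¬ (2 : ℤ) ^ j ∣ 3 * g - 1 := by
  refine ⟨(3 * g - 1).natAbs, fun h => ?_⟩
  have h1 := Int.le_of_dvd (abs_pos.2 (by omega : 3 * g - 1 ≠ 0)) ((dvd_abs _ _).2 h)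
  have h2 : (3 * g - 1).natAbs < 2 ^ (3 * g - 1).natAbs := Nat.lt_two_pow_self
  rw [Int.abs_eq_natAbs] at h1
  exact absurd h1 (not_le.2 (by exact_mod_cast h2))

open Classical in
/-- an unbounded locally constant function -/
noncomputable def vv (g : ℤ) : ℕ := Nat.find (ex_v g)

theorem Clo.pre (E : Set ℕ) : Clo (vv ⁻¹' E) := fun g =>
  ⟨2 ^ vv g, by positivity, fun x hx => by
    classical
    have h : ∀ j ≤ vv g, ((2 : ℤ) ^ j ∣ 3 * x - 1 ↔ (2 : ℤ) ^ j ∣ 3 * g - 1) := fun j hj =>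
      Int.dvd_iff_dvd_of_dvd_sub (by
        rw [show 3 * x - 1 - (3 * g - 1) = 3 * (x - g) by ring]
        exact ((pow_dvd_pow _ hj).trans hx).mul_left _)
    have : vv x = vv g := (Nat.find_eq_iff _).2 ⟨(h _ le_rfl).not.2 (Nat.find_spec (ex_v g)),
      fun j hj => (h j hj.le).not.not.2 (Nat.find_min (ex_v g) hj)⟩
    simp [this]⟩

theorem vv_unb (j : ℕ) : ∃ g, j ≤ vv g := by
  classical
  have h : IsCoprime (3 : ℤ) (2 ^ j) := IsCoprime.pow_right ⟨1, -1, by norm_num⟩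
  obtain ⟨a, b, hab⟩ := h
  refine ⟨a, (Nat.le_find_iff _ _).2 fun m hm => not_not.2 ((pow_dvd_pow _ hm.le).trans
    ⟨-b, by linear_combination hab⟩)⟩

/-- `ℓ²(ℤ)` -/
noncomputable abbrev HH := lp (fun _ : ℤ => ℂ) 2

/-- translation of a vector -/
noncomputable def sh (t : ℤ) (ξ : HH) : HH :=
  ⟨fun g => ξ (g - t), memℓp_gen
    ((Equiv.subRight t).summable_iff.2 ((lp.memℓp ξ).summable (by norm_num)))⟩

theorem norm_sh (t : ℤ) (ξ : HH) : ‖sh t ξ‖ = ‖ξ‖ := by
  rw [lp.norm_eq_tsum_rpow (by norm_num), lp.norm_eq_tsum_rpow (by norm_num),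
    ← (Equiv.subRight t).tsum_eq fun g => ‖ξ g‖ ^ (2 : ENNReal).toReal]
  rfl

open Classical in
theorem le_sh (W : Set ℤ) (t : ℤ) (ξ : HH) (g : ℤ) :
    ‖if g ∈ W then ξ (g - t) else 0‖ ≤ ‖sh t ξ g‖ := by
  split_ifs
  · rfl
  · simp

open Classical in
/-- translation by `t` followed by the cut-down to `W` -/
noncomputable def TT (W : Set ℤ) (t : ℤ) : HH →L[ℂ] HH := LinearMap.mkContinuous
  { toFun := fun ξ => ⟨fun g => if g ∈ W then ξ (g - t) else 0,
      (lp.memℓp (sh t ξ)).mono' (le_sh W t ξ)⟩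
    map_add' := fun a b => lp.ext (funext fun g => by
      change (if g ∈ W then (a + b) (g - t) else 0) =
        (if g ∈ W then a (g - t) else 0) + if g ∈ W then b (g - t) else 0
      split_ifs <;> simp)
    map_smul' := fun c a => lp.ext (funext fun g => by
      change (if g ∈ W then (c • a) (g - t) else 0) = c • if g ∈ W then a (g - t) else 0
      split_ifs <;> simp) } 1 fun ξ => by
    rw [one_mul, ← norm_sh t ξ]
    exact lp.norm_mono (by norm_num) (le_sh W t ξ)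

open Classical in
theorem TT_apply (W : Set ℤ) (t : ℤ) (ξ : HH) (g : ℤ) :
    TT W t ξ g = if g ∈ W then ξ (g - t) else 0 := rfl

theorem TT_mul (W V : Set ℤ) (t s : ℤ) :
    TT W t * TT V s = TT (W ∩ {x | x - t ∈ V}) (t + s) := by
  ext ξ g
  rw [mul_apply_eq_comp, TT_apply, TT_apply, TT_apply, sub_sub]
  by_cases g ∈ W <;> by_cases g - t ∈ V <;> simp [*]

theorem TT_one : TT Set.univ 0 = 1 := by
  ext ξ g
  simp [TT_apply]

theorem TT_star (W : Set ℤ) (t : ℤ) : star (TT W t) = TT {x | x - -t ∈ W} (-t) := by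
  rw [ContinuousLinearMap.star_eq_adjoint, eq_comm, ContinuousLinearMap.eq_adjoint_iff]
  intro ξ η
  rw [lp.inner_eq_tsum, lp.inner_eq_tsum, ← (Equiv.subRight t).tsum_eq]
  refine tsum_congr fun g => ?_
  rw [Equiv.subRight_apply, TT_apply, TT_apply]
  by_cases g ∈ W <;> simp [*]

/-- the generators -/
def gens : Set (HH →L[ℂ] HH) := {x | ∃ W t, Clo W ∧ TT W t = x}

/-- the span of the generators -/
noncomputable def SS : StarSubalgebra ℂ (HH →L[ℂ] HH) where
  toSubalgebra := (Submodule.span ℂ gens).toSubalgebra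
    (Submodule.subset_span ⟨_, _, Clo.univ, TT_one⟩) (fun x y hx hy => by
      set S := Submodule.span ℂ gens
      induction hx, hy using Submodule.span_induction₂ with
      | mem_mem x y hx hy =>
        obtain ⟨W, t, hW, rfl⟩ := hx
        obtain ⟨V, s, hV, rfl⟩ := hy
        exact Submodule.subset_span ⟨_, _, hW.inter (hV.shift t), (TT_mul ..).symm⟩
      | zero_left => simp
      | zero_right => simp
      | add_left x y z _ _ _ a c => exact add_mul x y z ▸ S.add_mem a c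
      | add_right x y z _ _ _ a c => exact mul_add x y z ▸ S.add_mem a c
      | smul_left a x y _ _ c => exact smul_mul_assoc a x y ▸ S.smul_mem _ c
      | smul_right a x y _ _ c => exact mul_smul_comm a x y ▸ S.smul_mem _ c)
  star_mem' := fun {x} hx => by
    set S := Submodule.span ℂ gens
    change star x ∈ S
    change x ∈ S at hx
    induction hx using Submodule.span_induction with
    | mem x hx =>
      obtain ⟨W, t, hW, rfl⟩ := hx
      exact Submodule.subset_span ⟨_, _, hW.shift _, (TT_star ..).symm⟩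
    | zero => simp
    | add x y _ _ a c => exact star_add x y ▸ S.add_mem a c
    | smul a x _ c => exact star_smul a x ▸ S.smul_mem _ c

theorem ex_coset (U : Ultrafilter ℤ) {n : ℤ} (hn : 0 < n) : ∃ r, {x | n ∣ x - r} ∈ U := by
  have : (⋃ r ∈ Set.Ico 0 n, {x | n ∣ x - r}) ∈ U := Filter.univ_mem' fun x =>
    Set.mem_iUnion₂.2 ⟨x % n, ⟨Int.emod_nonneg _ hn.ne', Int.emod_lt_of_pos _ hn⟩,
      Int.dvd_self_sub_emod⟩
  obtain ⟨r, -, h⟩ := (Ultrafilter.finite_biUnion_mem_iff (Set.finite_Ico 0 n)).1 this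
  exact ⟨r, h⟩

theorem exc0 (U : Ultrafilter ℤ) {x : HH →L[ℂ] HH} (hx : x ∈ Submodule.span ℂ gens) :
    ∃ (c : ℂ) (W : Set ℤ), Clo W ∧ W ∈ U ∧ ∀ V ⊆ W, TT V 0 * x * TT V 0 = c • TT V 0 := by
  induction hx using Submodule.span_induction with
  | mem x hx =>
    obtain ⟨W, t, hW, rfl⟩ := hx
    by_cases ht : t = 0
    · subst ht
      rcases U.mem_or_compl_mem W with h | h
      · refine ⟨1, W, hW, h, fun V hV => ?_⟩
        ext ξ g
        have := @hV g
        simp only [mul_apply_eq_comp, TT_apply, sub_zero, one_smul]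
        by_cases g ∈ V <;> simp_all
      · refine ⟨0, Wᶜ, hW.compl, h, fun V hV => ?_⟩
        ext ξ g
        have := @hV g
        simp only [mul_apply_eq_comp, TT_apply, sub_zero, zero_smul]
        by_cases g ∈ V <;> simp_all
    · obtain ⟨r, hr⟩ := ex_coset U (n := |t| + 1) (by positivity)
      refine ⟨0, _, Clo.coset (by positivity) r, hr, fun V hV => ?_⟩
      ext ξ g
      have : g ∈ V → g - t ∉ V := fun h1 h2 => by
        have h3 := dvd_sub (hV h1) (hV h2)
        rw [show g - r - (g - t - r) = t by ring] at h3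
        have := Int.le_of_dvd (abs_pos.2 ht) ((dvd_abs _ _).2 h3)
        omega
      simp only [mul_apply_eq_comp, TT_apply, sub_zero, zero_smul]
      by_cases g ∈ V <;> simp_all
  | zero => exact ⟨0, _, Clo.univ, univ_mem, by simp⟩
  | add x y _ _ a b =>
    obtain ⟨c, W, h1, h2, h3⟩ := a
    obtain ⟨d, V, k1, k2, k3⟩ := b
    exact ⟨c + d, _, h1.inter k1, inter_mem h2 k2, fun Y hY => by
      rw [mul_add, add_mul, h3 Y (hY.trans Set.inter_subset_left),
        k3 Y (hY.trans Set.inter_subset_right), add_smul]⟩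
  | smul a x _ b =>
    obtain ⟨c, W, h1, h2, h3⟩ := b
    exact ⟨a * c, W, h1, h2, fun Y hY => by
      rw [mul_smul_comm, smul_mul_assoc, h3 Y hY, mul_smul]⟩

/-- the algebra -/
def AA : Type := SS.topologicalClosure

/-- its C*-structure -/
noncomputable def csAA : PLift (CStarAlgebra AA) :=
  ⟨StarSubalgebra.cstarAlgebra SS.topologicalClosure (h_closed := SS.isClosed_topologicalClosure)⟩

noncomputable instance : CStarAlgebra AA := csAA.down

/-- the inclusion -/
noncomputable def inc : AA →⋆ₐ[ℂ] (HH →L[ℂ] HH) := SS.topologicalClosure.subtype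

theorem inc_inj : Function.Injective inc := Subtype.val_injective

theorem norm_inc (a : AA) : ‖inc a‖ = ‖a‖ := rfl

/-- generators in the algebra -/
noncomputable def τ {W : Set ℤ} (hW : Clo W) (t : ℤ) : AA :=
  ⟨TT W t, SS.le_topologicalClosure (Submodule.subset_span ⟨W, t, hW, rfl⟩)⟩

theorem inc_τ {W : Set ℤ} (hW : Clo W) (t : ℤ) : inc (τ hW t) = TT W t := rfl

theorem τ_mul {W V : Set ℤ} (hW : Clo W) (hV : Clo V) (h : W ⊆ V) : τ hW 0 * τ hV 0 = τ hW 0 :=
  inc_inj (by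
    rw [map_mul, inc_τ, inc_τ, TT_mul]
    simp [Set.inter_eq_left.2 h])

theorem τ_proj {W : Set ℤ} (hW : Clo W) : IsStarProjection (τ hW 0) :=
  ⟨τ_mul hW hW le_rfl, inc_inj (by rw [map_star, inc_τ, TT_star]; simp)⟩

theorem τ_one : τ Clo.univ 0 = 1 := inc_inj (by rw [inc_τ, TT_one, map_one])

theorem exc (U : Ultrafilter ℤ) (a : AA) {ε : ℝ} (hε : 0 < ε) :
    ∃ (c : ℂ) (W : Set ℤ) (hW : Clo W), W ∈ U ∧ ‖τ hW 0 * a * τ hW 0 - c • τ hW 0‖ < ε := by
  obtain ⟨x, hx, hd⟩ := Metric.mem_closure_iff.1 a.2 ε hε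
  obtain ⟨c, W, h1, h2, h3⟩ := exc0 U hx
  refine ⟨c, W, h1, h2, ?_⟩
  have hn : ‖TT W 0‖ ≤ 1 := (τ_proj h1).norm_le
  rw [← norm_inc, map_sub, map_mul, map_mul, map_smul, inc_τ, ← h3 W le_rfl, ← sub_mul, ← mul_sub]
  rw [dist_eq_norm] at hd
  exact (((norm_mul_le _ _).trans (mul_le_of_le_one_right (norm_nonneg _) hn)).trans
    ((norm_mul_le _ _).trans (mul_le_of_le_one_left (norm_nonneg _) hn))).trans_lt hd

end Pool.Agent.H.MP_8219a1_an
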