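import Pool.Agent.H.MP_8219a1_an.B

set_option autoImplicit false

namespace Pool.Agent.H.MP_8219a1_an

open scoped ComplexOrder InnerProductSpace
open Filter Topology

theorem dg_le (g : ℤ) (a : AA) : ‖inc a (lp.single 2 g 1) g‖ ≤ 1 * ‖a‖ := by
  refine (lp.norm_apply_le_norm (by norm_num) _ g).trans (((inc a).le_opNorm _).trans ?_)
  rw [lp.norm_single (by norm_num), norm_inc, norm_one, mul_one, one_mul]

/-- diagonal entries -/
noncomputable def dg (g : ℤ) : AA →L[ℂ] ℂ := LinearMap.mkContinuous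
  ⟨⟨fun a => inc a (lp.single 2 g 1) g, fun a b => by simp⟩, fun a b => by simp⟩ 1 (dg_le g)

theorem dg_apply (g : ℤ) (a : AA) : dg g a = inc a (lp.single 2 g 1) g := rfl

theorem norm_dg (g : ℤ) : ‖dg g‖ ≤ 1 := LinearMap.mkContinuous_norm_le _ zero_le_one _

open Classical in
theorem dg_τ {W : Set ℤ} (hW : Clo W) (g : ℤ) : dg g (τ hW 0) = if g ∈ W then 1 else 0 := by
  rw [dg_apply, inc_τ, TT_apply, sub_zero, lp.single_apply_self]

/-- `ρ` sits over the ultrafilter `U` -/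
def Over (U : Ultrafilter ℤ) (ρ : AA →L[ℂ] ℂ) : Prop :=
  ‖ρ‖ ≤ 1 ∧ ∀ (W : Set ℤ) (hW : Clo W), W ∈ U → ρ (τ hW 0) = 1

theorem Over.near {U : Ultrafilter ℤ} {ρ : AA →L[ℂ] ℂ} (h : Over U ρ) {a : AA} {c : ℂ}
    {W : Set ℤ} {hW : Clo W} (hU : W ∈ U) :
    ‖ρ a - c‖ ≤ ‖τ hW 0 * a * τ hW 0 - c • τ hW 0‖ := by
  have := le_norm h.1 (τ hW 0 * a * τ hW 0 - c • τ hW 0)
  rwa [map_sub, map_smul, cut h.1 (τ_proj hW) (h.2 W hW hU), h.2 W hW hU, smul_eq_mul,
    mul_one] at this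

theorem Over.uniq {U : Ultrafilter ℤ} {ρ σ : AA →L[ℂ] ℂ} (h : Over U ρ) (k : Over U σ) :
    ρ = σ := by
  ext a
  refine eq_of_norm_sub_le_zero (le_of_forall_pos_le_add fun ε hε => ?_)
  obtain ⟨c, W, hW, hU, h1⟩ := exc U a (half_pos hε)
  have := norm_sub_le_norm_sub_add_norm_sub (ρ a) c (σ a)
  rw [norm_sub_rev c] at this
  linarith [h.near (a := a) (c := c) (hW := hW) hU, k.near (a := a) (c := c) (hW := hW) hU]

theorem Over.one {U : Ultrafilter ℤ} {ρ : AA →L[ℂ] ℂ} (h : Over U ρ) : ρ 1 = 1 :=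
  τ_one ▸ h.2 _ Clo.univ univ_mem

theorem Over.pure {U : Ultrafilter ℤ} {ρ : AA →L[ℂ] ℂ} (h : Over U ρ) : IsPure ρ := by
  refine mem_extremePoints_iff_left.2 ⟨isState h.1 (IsStarProjection.one AA) h.one, ?_⟩
  rintro x hx y hy ⟨s, t, hs, ht, hst, e⟩
  refine Over.uniq ⟨hx.2.le, fun W hW hU => ?_⟩ h
  have h1 := h.2 W hW hU
  rw [← e] at h1
  have h2 := (le_norm hx.2.le _).trans (τ_proj hW).norm_le
  have h3 := (le_norm hy.2.le _).trans (τ_proj hW).norm_le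
  have h4 := congrArg Complex.re h1
  simp only [add_apply, smul_apply, Complex.add_re, Complex.real_smul, Complex.re_ofReal_mul,
    Complex.one_re] at h4
  have h5 := (Complex.re_le_norm _).trans h2
  have h6 := (Complex.re_le_norm _).trans h3
  have h7 : (x (τ hW 0)).re = 1 := by nlinarith
  have h8 := pow_le_one₀ (norm_nonneg _) h2 (n := 2)
  rw [Complex.sq_norm, Complex.normSq_apply, h7] at h8
  have h9 : (x (τ hW 0)).im = 0 := by nlinarith
  exact Complex.ext h7 h9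

theorem ex_lim (U : Ultrafilter ℤ) :
    ∃ ρ, Over U ρ ∧ ∀ a, Tendsto (fun g => dg g a) U (𝓝 (ρ a)) := by
  obtain ⟨ρ, h1, h2⟩ := (WeakDual.isCompact_closedBall (𝕜 := ℂ) (E := AA) 0 1).ultrafilter_le_nhds
    (U.map fun g => StrongDual.toWeakDual (dg g)) (by
      rw [Ultrafilter.coe_map, le_principal_iff, mem_map]
      exact univ_mem' fun g => by simpa using norm_dg g)
  have h3 : ∀ a, Tendsto (fun g => dg g a) U (𝓝 (ρ a)) := fun a =>
    ((WeakDual.eval_continuous a).tendsto ρ).comp h2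
  refine ⟨WeakDual.toStrongDual ρ, ⟨by simpa using h1, fun W hW hU => ?_⟩, h3⟩
  refine tendsto_nhds_unique (h3 _) (tendsto_const_nhds.congr' ?_)
  filter_upwards [hU] with g hg
  rw [dg_τ, if_pos hg]

theorem over_dg (g : ℤ) : Over (pure g) (dg g) :=
  ⟨norm_dg g, fun W hW h => by rw [dg_τ, if_pos (Ultrafilter.mem_pure.1 h)]⟩

theorem gdelta (ρ : AA →L[ℂ] ℂ) (h : ‖ρ‖ ≤ 1)
    (h1 : ∀ m : ℕ, ρ (τ (Clo.coset (n := m + 1) (by positivity) 0) 0) = 1) : ρ = dg 0 := by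
  refine Over.uniq ⟨h, fun W hW hU => ?_⟩ (over_dg 0)
  obtain ⟨n, hn, h2⟩ := hW 0
  obtain ⟨m, rfl⟩ : ∃ m : ℕ, n = m + 1 := ⟨(n - 1).toNat, by omega⟩
  rw [← cut h (τ_proj _) (h1 m), τ_mul _ _ fun x hx => (h2 x hx).2 (Ultrafilter.mem_pure.1 hU),
    τ_mul _ _ le_rfl, h1]

theorem ex_psi : ∃ ψ : AA →L[ℂ] ℂ, (∃ U, Over U ψ) ∧
    ∀ s : Set AA, s.Countable → ∃ ρ : AA →L[ℂ] ℂ, ‖ρ‖ ≤ 1 ∧ ρ ≠ ψ ∧ ∀ a ∈ s, ρ a = ψ a := by
  have : NeBot (comap vv atTop) := comap_neBot fun t ht => by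
    obtain ⟨j, hj⟩ := mem_atTop_sets.1 ht
    obtain ⟨g, hg⟩ := vv_unb j
    exact ⟨g, hj _ hg⟩
  obtain ⟨U, hU⟩ := Ultrafilter.exists_le (comap vv atTop)
  obtain ⟨ψ, h1, h2⟩ := ex_lim U
  refine ⟨ψ, ⟨U, h1⟩, fun s hs => ?_⟩
  have := hs.to_subtype
  let F := comap vv atTop ⊓ ⨅ a : s, comap (fun g => dg g a) (𝓝 (ψ a))
  have : NeBot F := U.neBot.mono (le_inf hU (le_iInf fun a => (h2 a).le_comap))
  obtain ⟨g, hg⟩ := F.exists_seq_tendsto
  obtain ⟨p, hp, hm⟩ := strictMono_subseq_of_tendsto_atTop (tendsto_comap_iff.1 (tendsto_inf.1 hg).1)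
  have key : ∀ i : ℕ, ∃ ρ : AA →L[ℂ] ℂ, Over ((hyperfilter ℕ).map fun n => g (p (2 * n + i))) ρ ∧
      ∀ a ∈ s, ρ a = ψ a := fun i => by
    obtain ⟨ρ, r1, r2⟩ := ex_lim ((hyperfilter ℕ).map fun n => g (p (2 * n + i)))
    refine ⟨ρ, r1, fun a ha => tendsto_nhds_unique (r2 a) ?_⟩
    have t1 := tendsto_comap_iff.1 (tendsto_iInf.1 (tendsto_inf.1 hg).2 ⟨a, ha⟩)
    have t2 : Tendsto (fun n => 2 * n + i) atTop atTop :=
      tendsto_atTop_mono (fun n => by rw [id]; omega : ∀ n, id n ≤ 2 * n + i) tendsto_id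
    exact ((t1.comp hp.tendsto_atTop).comp t2).mono_left Nat.hyperfilter_le_atTop
  obtain ⟨ρ, r1, r2⟩ := key 0
  obtain ⟨σ, s1, s2⟩ := key 1
  have hne : ρ ≠ σ := by
    rintro rfl
    have hW := Clo.pre (Set.range fun n => vv (g (p (2 * n))))
    have e1 := r1.2 _ hW (Ultrafilter.mem_map.2 (univ_mem' fun n => ⟨n, rfl⟩))
    have e2 := s1.2 _ hW.compl (Ultrafilter.mem_map.2 (univ_mem' fun n ⟨k, hk⟩ => by
      have := hm.injective hk
      omega))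
    have e3 := cut r1.1 (τ_proj hW) e1 (τ hW.compl 0)
    have e4 : τ hW 0 * τ hW.compl 0 = 0 := inc_inj (by
      rw [map_mul, inc_τ, inc_τ, TT_mul, map_zero]
      ext ξ x
      simp [TT_apply])
    rw [e4, e2] at e3
    simp at e3
  by_cases h : ρ = ψ
  · exact ⟨σ, s1.1, fun k => hne (h.trans k.symm), s2⟩
  · exact ⟨ρ, r1.1, h, r2⟩

theorem ex_dg {a : AA} (ha : a ≠ 0) : ∃ g t, dg g (a * τ Clo.univ t) ≠ 0 := by
  by_contra! h
  refine ha (inc_inj ?_)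
  rw [map_zero]
  refine lp.ext_continuousLinearMap (by norm_num) fun k => ?_
  ext g
  have h1 : TT Set.univ (k - g) (lp.single 2 g 1) = lp.single 2 k 1 := by
    ext x
    rw [TT_apply, if_pos (Set.mem_univ _), lp.single_apply, lp.single_apply, Pi.single_apply,
      Pi.single_apply]
    exact if_congr (by omega) rfl rfl
  have := h g (k - g)
  rw [dg_apply, map_mul, inc_τ, mul_apply_eq_comp, h1] at this
  simpa using this

theorem simple : IsSimple AA := by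
  intro I _
  refine or_iff_not_imp_left.2 fun hI => ?_
  obtain ⟨a, ha, h0⟩ : ∃ a ∈ I, a ≠ 0 := by
    by_contra! h
    exact hI (eq_bot_iff.2 fun a ha => h a ha)
  obtain ⟨g, t, h1⟩ := ex_dg h0
  set b := a * τ Clo.univ t
  have hb : b ∈ I := I.mul_mem_right _ _ ha
  obtain ⟨c, W, hW, hU, h2⟩ := exc (pure g) b (half_pos (norm_pos_iff.2 h1))
  have h3 := (over_dg g).near (a := b) (c := c) (hW := hW) hU
  have h4 := norm_le_norm_sub_add (dg g b) c
  set y := τ hW 0 * b * τ hW 0 - c • τ hW 0 with hy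
  have h5 : ‖y‖ < ‖c‖ := by linarith
  have hc : c ≠ 0 := norm_pos_iff.1 ((norm_nonneg _).trans_lt h5)
  obtain ⟨u, hu⟩ := isUnit_one_sub_of_norm_lt_one (x := -(c⁻¹ • y)) (by
    rwa [norm_neg, norm_smul, norm_inv, inv_mul_lt_iff₀ (norm_pos_iff.2 hc), mul_one])
  have h6 : u * τ hW 0 = (c⁻¹ • τ hW 0) * b * τ hW 0 := by
    rw [hu, hy, sub_neg_eq_add, add_mul, smul_mul_assoc, sub_mul, smul_mul_assoc,
      mul_assoc _ (τ hW 0), τ_mul _ _ le_rfl, smul_sub, smul_smul, inv_mul_cancel₀ hc]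
    simp
  have h7 : τ hW 0 ∈ I := by
    have := I.mul_mem_left (↑u⁻¹) _ (h6 ▸ I.mul_mem_right _ (τ hW 0) (I.mul_mem_left _ _ hb))
    rwa [Units.inv_mul_cancel_left] at this
  have h8 : ∀ s, τ (hW.shift s) 0 ∈ I := fun s => by
    have : τ (hW.shift s) 0 = τ Clo.univ s * τ hW 0 * τ Clo.univ (-s) := inc_inj (by
      simp [inc_τ, TT_mul])
    exact this ▸ I.mul_mem_right _ _ (I.mul_mem_left _ _ h7)
  have h9 : ∀ j : ℕ, ∃ (V : Set ℤ) (hV : Clo V), τ hV 0 ∈ I ∧ ∀ s : ℤ, 0 ≤ s → s ≤ j →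
      ∀ x, x - s ∈ W → x ∈ V := by
    intro j
    induction j with
    | zero => exact ⟨W, hW, h7, fun s a b x hx => by simpa [show s = 0 by omega] using hx⟩
    | succ j ih =>
      obtain ⟨V, hV, k1, k2⟩ := ih
      have hS := hW.shift (j + 1)
      refine ⟨_, hV.union hS, ?_, fun s a b x hx => ?_⟩
      · have : τ (hV.union hS) 0 = τ hV 0 + τ hS 0 - τ hV 0 * τ hS 0 := inc_inj (by
          ext ξ x
          simp only [map_sub, map_add, map_mul, inc_τ, sub_apply, add_apply, mul_apply_eq_comp,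
            lp.coeFn_sub, lp.coeFn_add, Pi.sub_apply, Pi.add_apply, TT_apply]
          by_cases x ∈ V <;> by_cases x - (j + 1) ∈ W <;> simp [*])
        exact this ▸ I.sub_mem (I.add_mem k1 (h8 _)) (I.mul_mem_right _ _ k1)
      · by_cases hs : s ≤ j
        · exact Or.inl (k2 s a hs x hx)
        · obtain rfl : s = j + 1 := by omega
          exact Or.inr hx
  obtain ⟨n, hn, h10⟩ := hW g
  obtain ⟨V, hV, k1, k2⟩ := h9 n.toNat
  obtain rfl : V = Set.univ := Set.eq_univ_of_forall fun x =>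
    k2 ((x - g) % n) (Int.emod_nonneg _ hn.ne') (by have := Int.emod_lt_of_pos (x - g) hn; omega) x
      ((h10 _ (by rw [sub_right_comm]; exact Int.dvd_self_sub_emod)).2 (Ultrafilter.mem_pure.1 hU))
  exact (I.one_mem_iff).1 (τ_one ▸ k1)

end Pool.Agent.H.MP_8219a1_an
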