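import Mathlib

set_option autoImplicit false

namespace Pool.Agent.H.MP_8219a1_an

open scoped ComplexOrder

variable {A : Type*} [NonUnitalCStarAlgebra A]

/-- A state: a positive linear functional of norm one. -/
def IsState (φ : A →L[ℂ] ℂ) : Prop := (∀ a, 0 ≤ φ (star a * a)) ∧ ‖φ‖ = 1

/-- A pure state: an extreme point of the state space. -/
def IsPure (φ : A →L[ℂ] ℂ) : Prop := φ ∈ {ρ : A →L[ℂ] ℂ | IsState ρ}.extremePoints ℝ

variable (A) in
/-- No closed two-sided ideals except `0` and `A`. -/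
def IsSimple : Prop := ∀ I : TwoSidedIdeal A, IsClosed (I : Set A) → I = ⊥ ∨ I = ⊤

/-- `φ'` is the one and only state of `B` that extends `φ` along `ι`. -/
def UniqueExt {B : Type*} [NonUnitalCStarAlgebra B] (ι : A →⋆ₙₐ[ℂ] B) (φ : A →L[ℂ] ℂ)
    (φ' : B →L[ℂ] ℂ) : Prop :=
  ∀ ρ : B →L[ℂ] ℂ, (IsState ρ ∧ ∀ a, ρ (ι a) = φ a) ↔ ρ = φ'

end Pool.Agent.H.MP_8219a1_an
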